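import Mathlib
import Pool.Agent.R341.Rou

set_option autoImplicit false

/-! Partial sums `∑_{n ≤ N} a n z^n` of a bounded sequence: the minimum over the unit circle does not
tend to infinity with `N`. -/

namespace Pool.Agent.K1H93.Flat

open Polynomial Complex Metric Filter Topology
open Pool.Agent.R341.Rou (nz rouche)

/-- `Q N = ∑_{n < N} a (n + 1) X ^ n`. -/
noncomputable def Q (a : ℕ → ℂ) (N : ℕ) : ℂ[X] := ∑ n ∈ Finset.range N, monomial n (a (n + 1))

theorem Q_succ (a : ℕ → ℂ) (N : ℕ) : Q a (N + 1) = Q a N + monomial N (a (N + 1)) := by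
  unfold Q
  rw [Finset.sum_range_succ]

theorem eval_Q (a : ℕ → ℂ) (N : ℕ) (z : ℂ) :
    (Q a N).eval z = ∑ n ∈ Finset.range N, a (n + 1) * z ^ n := by
  unfold Q
  rw [eval_finsetSum]
  simp [eval_monomial]

theorem coeff_zero_Q (a : ℕ → ℂ) {N : ℕ} (hN : 1 ≤ N) : (Q a N).coeff 0 = a 1 := by
  rw [coeff_zero_eq_eval_zero, eval_Q]
  rw [Finset.sum_eq_single_of_mem 0 (Finset.mem_range.2 hN)]
  · simp
  · intro b _ hb
    simp [hb]

/-- no zeros near the origin -/
theorem no_small_root (a : ℕ → ℂ) (ha : ∀ n, ‖a n‖ ≤ 1) {N : ℕ} (hN : 1 ≤ N) {z : ℂ}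
    (hz : ‖z‖ < ‖a 1‖ / 2) : (Q a N).eval z ≠ 0 := by
  intro h0
  have h1 := ha 1
  have hz1 : ‖z‖ < 1 / 2 := by linarith
  rw [eval_Q] at h0
  obtain ⟨M, rfl⟩ : ∃ M, N = M + 1 := ⟨N - 1, by omega⟩
  rw [Finset.sum_range_succ'] at h0
  simp only [pow_zero, mul_one, zero_add] at h0
  have h2 : ‖∑ n ∈ Finset.range M, a (n + 1 + 1) * z ^ (n + 1)‖ ≤ ‖z‖ / (1 - ‖z‖) := by
    calc ‖∑ n ∈ Finset.range M, a (n + 1 + 1) * z ^ (n + 1)‖
        ≤ ∑ n ∈ Finset.range M, ‖a (n + 1 + 1) * z ^ (n + 1)‖ := norm_sum_le _ _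
      _ ≤ ∑ n ∈ Finset.range M, ‖z‖ * ‖z‖ ^ n := by
          apply Finset.sum_le_sum
          intro n _
          rw [norm_mul, norm_pow, pow_succ]
          have := ha (n + 1 + 1)
          have h3 : 0 ≤ ‖z‖ ^ n * ‖z‖ := by positivity
          nlinarith
      _ = ‖z‖ * ∑ n ∈ Finset.range M, ‖z‖ ^ n := by rw [Finset.mul_sum]
      _ ≤ ‖z‖ * (1 - ‖z‖)⁻¹ := by
          apply mul_le_mul_of_nonneg_left _ (norm_nonneg _)
          exact (summable_geometric_of_lt_one (norm_nonneg _) (by linarith)).sum_le_tsum _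
            (fun _ _ => by positivity) |>.trans
            (le_of_eq (tsum_geometric_of_lt_one (norm_nonneg _) (by linarith)))
      _ = ‖z‖ / (1 - ‖z‖) := by rw [div_eq_mul_inv]
  have h3 : ‖a 1‖ = ‖∑ n ∈ Finset.range M, a (n + 1 + 1) * z ^ (n + 1)‖ := by
    rw [← norm_neg (a 1)]
    congr 1
    linear_combination -h0
  have h4 : ‖z‖ / (1 - ‖z‖) ≤ 2 * ‖z‖ := by
    rw [div_le_iff₀ (by linarith)]
    nlinarith [norm_nonneg z]
  linarith

/-- Jensen: the Mahler measure is controlled by the number of zeros in the disc. -/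
theorem logMahler_le (a : ℕ → ℂ) (ha : ∀ n, ‖a n‖ ≤ 1) (ha1 : a 1 ≠ 0) {N : ℕ} (hN : 1 ≤ N) :

    (Q a N).logMahlerMeasure ≤ Real.log ‖a 1‖ + (nz 1 (Q a N) : ℝ) * Real.log (2 / ‖a 1‖) := by
  classical
  have hc := coeff_zero_Q a hN
  have hQ0 : Q a N ≠ 0 := by
    intro h
    rw [h] at hc
    simp at hc
    exact ha1 hc.symm
  rw [logMahlerMeasure_eq_log_leadingCoeff_add_sum_log_roots]
  have hprod : (Q a N).coeff 0 = (-1) ^ (Q a N).natDegree * (Q a N).leadingCoeff * (Q a N).roots.prod :=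
    (IsAlgClosed.splits (Q a N)).coeff_zero_eq_leadingCoeff_mul_prod_roots
  have hroots : ∀ w ∈ (Q a N).roots, ‖a 1‖ / 2 ≤ ‖w‖ := by
    intro w hw
    by_contra hlt
    rw [not_le] at hlt
    exact no_small_root a ha hN hlt ((mem_roots hQ0).1 hw)
  have ha1' : 0 < ‖a 1‖ := norm_pos_iff.2 ha1
  have hsum : ∀ s : Multiset ℂ, (∀ w ∈ s, ‖a 1‖ / 2 ≤ ‖w‖) →
      (s.map (fun w => Real.posLog ‖w‖)).sum ≤ Real.log ‖s.prod‖ +
        ((s.filter (fun z => ‖z‖ < 1)).card : ℝ) * Real.log (2 / ‖a 1‖) := by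
    intro s
    induction s using Multiset.induction_on with
    | empty => intro _; simp
    | cons w s ih =>
      intro hs
      have ih' := ih (fun v hv => hs v (Multiset.mem_cons_of_mem hv))
      have hw := hs w (Multiset.mem_cons_self w s)
      have hw0 : 0 < ‖w‖ := by linarith
      have hs0 : s.prod ≠ 0 := by
        intro h0
        rw [Multiset.prod_eq_zero_iff] at h0
        have := hs 0 (Multiset.mem_cons_of_mem h0)
        rw [norm_zero] at this
        linarith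
      rw [Multiset.map_cons, Multiset.sum_cons, Multiset.prod_cons, norm_mul,
        Real.log_mul hw0.ne' (norm_ne_zero_iff.2 hs0)]
      by_cases h : ‖w‖ < 1
      · rw [Multiset.filter_cons_of_pos (p := fun z : ℂ => ‖z‖ < 1) s h, Multiset.card_cons]
        have h1 : Real.posLog ‖w‖ = 0 := by
          rw [Real.posLog_eq_zero_iff, abs_of_nonneg (norm_nonneg _)]
          exact h.le
        have h2 : Real.log (‖a 1‖ / 2) ≤ Real.log ‖w‖ := Real.log_le_log (by positivity) hw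
        have h3 : Real.log (2 / ‖a 1‖) = - Real.log (‖a 1‖ / 2) := by
          rw [← Real.log_inv, inv_div]
        rw [h3] at ih'
        rw [h1, h3]
        push_cast
        linarith
      · rw [Multiset.filter_cons_of_neg (p := fun z : ℂ => ‖z‖ < 1) s h]
        have h1 : Real.posLog ‖w‖ = Real.log ‖w‖ := by
          apply Real.posLog_eq_log
          rw [abs_of_nonneg (norm_nonneg _)]
          exact not_lt.1 h
        rw [h1]
        linarith
  have h5 := hsum (Q a N).roots hroots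
  have hlead : (Q a N).leadingCoeff ≠ 0 := leadingCoeff_ne_zero.2 hQ0
  have hrp : (Q a N).roots.prod ≠ 0 := by
    intro h0
    rw [h0, mul_zero, hc] at hprod
    exact ha1 hprod
  have h6 : Real.log ‖a 1‖ = Real.log ‖(Q a N).leadingCoeff‖ + Real.log ‖(Q a N).roots.prod‖ := by
    rw [← Real.log_mul (norm_ne_zero_iff.2 hlead) (norm_ne_zero_iff.2 hrp), ← norm_mul, ← hc, hprod]
    simp [norm_pow]
  have h7 : nz 1 (Q a N) = ((Q a N).roots.filter (fun z => ‖z‖ < 1)).card := by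
    unfold nz
    congr
  rw [h7, h6]
  linarith

/-- The number of zeros in the disc does not change. -/
theorem nz_const (a : ℕ → ℂ) (ha : ∀ n, ‖a n‖ ≤ 1) {N₀ : ℕ}
    (h : ∀ N, N₀ ≤ N → ∀ z : ℂ, ‖z‖ = 1 → 1 < ‖(Q a N).eval z‖) :
    ∀ N, N₀ ≤ N → nz 1 (Q a N) = nz 1 (Q a N₀) := by
  intro N hN
  induction N, hN using Nat.le_induction with
  | base => rfl
  | succ N hN ih =>
    rw [← ih]
    symm
    apply rouche one_pos
    intro z hz
    rw [Q_succ, eval_add, eval_monomial]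
    have h1 : (Q a N).eval z - ((Q a N).eval z + a (N + 1) * z ^ N) = - (a (N + 1) * z ^ N) := by ring
    rw [h1, norm_neg, norm_mul, norm_pow, hz, one_pow, mul_one]
    exact lt_of_le_of_lt (ha _) (h N hN z hz)

/-- Main statement in terms of the polynomials `Q a N`. -/
theorem main (a : ℕ → ℂ) (ha : ∀ n, ‖a n‖ ≤ 1) (ha1 : a 1 ≠ 0) :
    ∃ C : ℝ, ∀ N₀ : ℕ, ∃ N, N₀ ≤ N ∧ ∃ z : ℂ, ‖z‖ = 1 ∧ ‖(Q a N).eval z‖ ≤ C := by
  by_contra hcon
  push Not at hcon
  obtain ⟨N₀, hN₀⟩ := hcon 1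
  set N₁ := max N₀ 1 with hN₁
  set k := nz 1 (Q a N₁) with hk
  have hconst := nz_const a ha (N₀ := N₁) (fun N hN z hz => hN₀ N (le_trans (le_max_left _ _) hN) z hz)
  set K := Real.log ‖a 1‖ + (k : ℝ) * Real.log (2 / ‖a 1‖) with hK
  obtain ⟨N₂, hN₂⟩ := hcon (Real.exp (K + 1))
  set N := max N₁ N₂ with hN
  have h1N : 1 ≤ N := le_trans (le_max_right N₀ 1) (le_max_left _ _)
  have hlow : ∀ z : ℂ, ‖z‖ = 1 → Real.exp (K + 1) < ‖(Q a N).eval z‖ := fun z hz =>
    hN₂ N (le_max_right _ _) z hz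
  have hne : ∀ z : ℂ, ‖z‖ = 1 → (Q a N).eval z ≠ 0 := by
    intro z hz h0
    have := hlow z hz
    rw [h0, norm_zero] at this
    exact absurd this (not_lt.2 (Real.exp_pos _).le)
  have hup := logMahler_le a ha ha1 h1N
  rw [hconst N (le_max_left _ _), ← hk, ← hK] at hup
  have hlo : K + 1 ≤ (Q a N).logMahlerMeasure := by
    rw [logMahlerMeasure_def]
    have hcont : ContinuousOn (fun x : ℂ => Real.log ‖(Q a N).eval x‖) (sphere 0 |1|) := by
      intro x hx
      have hx1 : ‖x‖ = 1 := by simpa using hx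
      apply ContinuousAt.continuousWithinAt
      apply ContinuousAt.log
      · fun_prop
      · exact norm_ne_zero_iff.2 (hne x hx1)
    have hc : CircleIntegrable (fun x : ℂ => Real.log ‖(Q a N).eval x‖) 0 1 := by
      apply ContinuousOn.circleIntegrable'
      exact hcont
    have h2 : Real.circleAverage (fun _ : ℂ => K + 1) 0 1 = K + 1 := Real.circleAverage_const _ _ _
    rw [← h2]
    apply Real.circleAverage_mono
    · exact circleIntegrable_const _ _ _
    · exact hc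
    · intro x hx
      have hx1 : ‖x‖ = 1 := by simpa using hx
      have h3 := hlow x hx1
      have h4 := Real.log_le_log (Real.exp_pos _) h3.le
      rwa [Real.log_exp] at h4
  linarith

end Pool.Agent.K1H93.Flat
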